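import Mathlib

set_option autoImplicit false

open scoped commutatorElement

namespace Pool.Agent.Results.MP_0edd48_al.Meet

/-- The automorphism `θ` of the free group on `n` generators acts trivially on the
abelianization, i.e. it lies in `IA(F(n))`. -/
def IsIA {n : ℕ} (θ : MulAut (FreeGroup (Fin n))) : Prop :=
  ∀ x, θ x * x⁻¹ ∈ commutator (FreeGroup (Fin n))

/-- `θ` is the automorphism `K_{ij}`: `x_i ↦ x_j x_i x_j⁻¹`, all other generators fixed. -/
def IsConjGen {n : ℕ} (θ : MulAut (FreeGroup (Fin n))) : Prop :=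
  ∃ i j : Fin n, i ≠ j ∧ θ (FreeGroup.of i) = FreeGroup.of j * FreeGroup.of i * (FreeGroup.of j)⁻¹ ∧
    ∀ m, m ≠ i → θ (FreeGroup.of m) = FreeGroup.of m

/-- `θ` is the automorphism `K_{ijk}`, `i ≠ j < k ≠ i`: `x_i ↦ x_i [x_j, x_k]`, all other
generators fixed. Here `[a, b] = a b a⁻¹ b⁻¹`. -/
def IsCommGen {n : ℕ} (θ : MulAut (FreeGroup (Fin n))) : Prop :=
  ∃ i j k : Fin n, i ≠ j ∧ j < k ∧ k ≠ i ∧
    θ (FreeGroup.of i) = FreeGroup.of i * ⁅FreeGroup.of j, FreeGroup.of k⁆ ∧
    ∀ m, m ≠ i → θ (FreeGroup.of m) = FreeGroup.of m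

/-- The group `C(n)` generated by all `K_{ij}`. -/
def C (n : ℕ) : Subgroup (MulAut (FreeGroup (Fin n))) := Subgroup.closure {θ | IsConjGen θ}

/-- The group `T(n)` generated by all `K_{ijk}`. -/
def T (n : ℕ) : Subgroup (MulAut (FreeGroup (Fin n))) := Subgroup.closure {θ | IsCommGen θ}

/-- The normal closure of `C(n)` in `IA(F(n))`: the subgroup generated by all conjugates of
elements of `C(n)` by elements of `IA(F(n))`. -/
def CBar (n : ℕ) : Subgroup (MulAut (FreeGroup (Fin n))) :=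
  Subgroup.closure {θ | ∃ g c : MulAut (FreeGroup (Fin n)), IsIA g ∧ c ∈ C n ∧ θ = g * c * g⁻¹}

/-- the endomorphism `x_i ↦ u x_i v` -/
def ev {n : ℕ} (i : Fin n) (u v : FreeGroup (Fin n)) : FreeGroup (Fin n) →* FreeGroup (Fin n) :=
  FreeGroup.lift (fun m => if m = i then u * FreeGroup.of i * v else FreeGroup.of m)

lemma ev_self {n : ℕ} (i : Fin n) (u v : FreeGroup (Fin n)) :
    ev i u v (FreeGroup.of i) = u * FreeGroup.of i * v := by simp [ev]

lemma ev_other {n : ℕ} (i m : Fin n) (h : m ≠ i) (u v : FreeGroup (Fin n)) :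
    ev i u v (FreeGroup.of m) = FreeGroup.of m := by simp [ev, h]

/-- elements not involving `x_i` -/
def Fx {n : ℕ} (i : Fin n) : Subgroup (FreeGroup (Fin n)) where
  carrier := {u | ∀ s t, ev i s t u = u}
  one_mem' := fun s t => map_one _
  mul_mem' := fun {a b} ha hb s t => by rw [map_mul, ha, hb]
  inv_mem' := fun {a} ha s t => by rw [map_inv, ha]

lemma of_mem_Fx {n : ℕ} (i m : Fin n) (h : m ≠ i) : FreeGroup.of m ∈ Fx i :=
  fun s t => ev_other i m h s t

/-- the automorphism `x_i ↦ u x_i v`, when `u` and `v` do not involve `x_i` -/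
def au {n : ℕ} (i : Fin n) (u v : Fx i) : MulAut (FreeGroup (Fin n)) :=
  MonoidHom.toMulEquiv (ev i u.1 v.1) (ev i u.1⁻¹ v.1⁻¹)
    (by
      apply FreeGroup.ext_hom
      intro m
      by_cases h : m = i
      · subst h
        rw [MonoidHom.comp_apply, ev_self, map_mul, map_mul, ev_self, u.2, v.2]
        simp only [MonoidHom.id_apply]; group
      · simp [ev, h])
    (by
      apply FreeGroup.ext_hom
      intro m
      by_cases h : m = i
      · subst h
        rw [MonoidHom.comp_apply, ev_self, map_mul, map_mul, ev_self, map_inv, map_inv, u.2, v.2]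
        simp only [MonoidHom.id_apply]; group
      · simp [ev, h])

lemma au_apply {n : ℕ} (i : Fin n) (u v : Fx i) (x : FreeGroup (Fin n)) :
    au i u v x = ev i u.1 v.1 x := rfl

lemma aut_ext {n : ℕ} (f g : MulAut (FreeGroup (Fin n)))
    (h : ∀ m, f (FreeGroup.of m) = g (FreeGroup.of m)) : f = g := by
  have : f.toMonoidHom = g.toMonoidHom := FreeGroup.ext_hom _ _ h
  ext x
  exact DFunLike.congr_fun this x

lemma au_mul {n : ℕ} (i : Fin n) (u v u' v' : Fx i) :
    au i u v * au i u' v' = au i (u' * u) (v * v') := by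
  apply aut_ext
  intro m
  rw [MulAut.mul_apply, au_apply, au_apply, au_apply]
  by_cases h : m = i
  · subst h
    rw [ev_self, ev_self, map_mul, map_mul, ev_self, u'.2, v'.2]
    simp only [Subgroup.coe_mul]; group
  · rw [ev_other _ _ h, ev_other _ _ h, ev_other _ _ h]

lemma au_inv {n : ℕ} (i : Fin n) (u v : Fx i) : (au i u v)⁻¹ = au i u⁻¹ v⁻¹ := by
  rw [inv_eq_iff_mul_eq_one, au_mul]
  apply aut_ext
  intro m
  rw [au_apply, MulAut.one_apply]
  by_cases h : m = i
  · subst h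
    rw [ev_self]; simp
  · rw [ev_other _ _ h]

lemma isIA_of_gen {n : ℕ} (θ : MulAut (FreeGroup (Fin n)))
    (h : ∀ m, θ (FreeGroup.of m) * (FreeGroup.of m)⁻¹ ∈ commutator (FreeGroup (Fin n))) :
    IsIA θ := by
  have h1 : (Abelianization.of (G := FreeGroup (Fin n))).comp θ.toMonoidHom = Abelianization.of := by
    apply FreeGroup.ext_hom
    intro m
    have := h m
    rw [← Abelianization.ker_of, MonoidHom.mem_ker, map_mul, map_inv, mul_inv_eq_one] at this
    exact this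
  intro x
  rw [← Abelianization.ker_of, MonoidHom.mem_ker, map_mul, map_inv, mul_inv_eq_one]
  exact DFunLike.congr_fun h1 x

lemma isIA_au {n : ℕ} (i : Fin n) (v : Fx i) (hv : v.1 ∈ commutator (FreeGroup (Fin n))) :
    IsIA (au i 1 v) := by
  apply isIA_of_gen
  intro m
  rw [au_apply]
  by_cases h : m = i
  · subst h
    rw [ev_self]
    have := (inferInstance : (commutator (FreeGroup (Fin n))).Normal).conj_mem _ hv (FreeGroup.of m)
    simpa using this
  · rw [ev_other _ _ h]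
    simp [Subgroup.one_mem]

/-- For every `n ≥ 4` some non-identity automorphism lies both in the normal closure of `C(n)` in
`IA(F(n))` and in `T(n)`. -/
theorem result : ∀ n : ℕ, 4 ≤ n → ∃ θ : MulAut (FreeGroup (Fin n)),
    θ ≠ 1 ∧ θ ∈ CBar n ∧ θ ∈ T n := by
  intro n hn
  let i0 : Fin n := ⟨0, by omega⟩
  let i1 : Fin n := ⟨1, by omega⟩
  let i2 : Fin n := ⟨2, by omega⟩
  let i3 : Fin n := ⟨3, by omega⟩
  have h10 : i1 ≠ i0 := by simp [i0, i1, Fin.ext_iff]
  have h20 : i2 ≠ i0 := by simp [i0, i2, Fin.ext_iff]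
  have h30 : i3 ≠ i0 := by simp [i0, i3, Fin.ext_iff]
  let x1 : Fx i0 := ⟨FreeGroup.of i1, of_mem_Fx i0 i1 h10⟩
  let x2 : Fx i0 := ⟨FreeGroup.of i2, of_mem_Fx i0 i2 h20⟩
  let x3 : Fx i0 := ⟨FreeGroup.of i3, of_mem_Fx i0 i3 h30⟩
  let v : Fx i0 := ⁅x1, x2⁆
  let w : Fx i0 := ⁅x1, x3⁆
  -- the automorphisms
  have hk1 : au i0 x1 x1⁻¹ ∈ C n := Subgroup.subset_closure ⟨i0, i1, h10.symm, by
      rw [au_apply, ev_self]; rfl, fun m hm => by rw [au_apply, ev_other _ _ hm]⟩
  have hk2 : au i0 x2 x2⁻¹ ∈ C n := Subgroup.subset_closure ⟨i0, i2, h20.symm, by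
      rw [au_apply, ev_self]; rfl, fun m hm => by rw [au_apply, ev_other _ _ hm]⟩
  have hαv : au i0 1 v ∈ T n := Subgroup.subset_closure ⟨i0, i1, i2, h10.symm, by
      simp [i1, i2, Fin.lt_def], h20, by
      rw [au_apply, ev_self, Subgroup.coe_one, one_mul]; rfl,
      fun m hm => by rw [au_apply, ev_other _ _ hm]⟩
  have hαw : au i0 1 w ∈ T n := Subgroup.subset_closure ⟨i0, i1, i3, h10.symm, by
      simp [i1, i3, Fin.lt_def], h30, by
      rw [au_apply, ev_self, Subgroup.coe_one, one_mul]; rfl,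
      fun m hm => by rw [au_apply, ev_other _ _ hm]⟩
  have hc : au i0 v v⁻¹ ∈ C n := by
    have e : au i0 v v⁻¹ = (au i0 x2 x2⁻¹)⁻¹ * (au i0 x1 x1⁻¹)⁻¹ * au i0 x2 x2⁻¹ *
        au i0 x1 x1⁻¹ := by
      rw [au_inv, au_inv, au_mul, au_mul, au_mul]
      congr 1
      all_goals (simp only [v, commutatorElement_def]; group)
    rw [e]
    exact (C n).mul_mem ((C n).mul_mem ((C n).mul_mem ((C n).inv_mem hk2) ((C n).inv_mem hk1)) hk2)
      hk1
  have hwc : w.1 ∈ commutator (FreeGroup (Fin n)) := by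
    rw [commutator_def]
    exact Subgroup.commutator_mem_commutator (Subgroup.mem_top x1.1) (Subgroup.mem_top x3.1)
  refine ⟨au i0 1 (w⁻¹ * v⁻¹ * w * v), ?_, ?_, ?_⟩
  · intro h
    have h1 := congrArg (fun f : MulAut (FreeGroup (Fin n)) => f (FreeGroup.of i0)) h
    simp only [au_apply, ev_self, MulAut.one_apply, Subgroup.coe_one, one_mul] at h1
    have h2 : (w⁻¹ * v⁻¹ * w * v).1 = 1 := by
      have := mul_left_cancel (h1.trans (mul_one _).symm)
      exact this
    have h3 := congrArg (FreeGroup.lift (fun m : Fin n => if m = i1 then Equiv.swap (2 : Fin 4) 3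
      else if m = i2 then Equiv.swap (1 : Fin 4) 2 else Equiv.swap (0 : Fin 4) 1 *
        Equiv.swap 1 2)) h2
    have h12 : i2 ≠ i1 := by simp [i1, i2, Fin.ext_iff]
    have h13 : i3 ≠ i1 := by simp [i1, i3, Fin.ext_iff]
    have h23 : i3 ≠ i2 := by simp [i2, i3, Fin.ext_iff]
    simp only [v, w, commutatorElement_def, Subgroup.coe_mul, Subgroup.coe_inv, x1, x2, x3,
      map_mul, map_inv, FreeGroup.lift_apply_of, h12, h13, h23, if_true, if_false, map_one] at h3
    revert h3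
    decide
  · have e : au i0 1 (w⁻¹ * v⁻¹ * w * v) =
        ((au i0 1 w)⁻¹ * au i0 v v⁻¹ * (au i0 1 w)⁻¹⁻¹) * (1 * (au i0 v v⁻¹)⁻¹ * 1⁻¹) := by
      rw [inv_inv, one_mul, inv_one, mul_one, au_inv, au_inv, au_mul, au_mul, au_mul]
      congr 1
      all_goals group
    rw [e]
    refine (CBar n).mul_mem (Subgroup.subset_closure ⟨_, _, ?_, hc, rfl⟩)
      (Subgroup.subset_closure ⟨1, _, ?_, (C n).inv_mem hc, rfl⟩)
    · rw [au_inv, inv_one]
      exact isIA_au _ _ ((commutator _).inv_mem hwc)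
    · intro x
      simp [Subgroup.one_mem]
  · have e : au i0 1 (w⁻¹ * v⁻¹ * w * v) =
        (au i0 1 w)⁻¹ * (au i0 1 v)⁻¹ * au i0 1 w * au i0 1 v := by
      rw [au_inv, au_inv, au_mul, au_mul, au_mul]
      simp only [inv_one, mul_one]
    rw [e]
    exact (T n).mul_mem ((T n).mul_mem ((T n).mul_mem ((T n).inv_mem hαw) ((T n).inv_mem hαv)) hαw)
      hαv

end Pool.Agent.Results.MP_0edd48_al.Meet
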